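import Pool.Agent.Helper63.P705.NUM.Goals

/-!
# MP_705522_gt, packet NUM-N13: structure of `tabs`
-/

namespace Pool.Agent.Helper3.P705

open Pool.Agent.Helper63.P705
open Finset hiding ext

theorem shl (a b : ℕ) : Nat.shiftLeft a b = a * 2 ^ b := Nat.shiftLeft_eq a b

theorem shr (a b : ℕ) : Nat.shiftRight a b = a / 2 ^ b := Nat.shiftRight_eq_div_pow a b

theorem land_mask (a k : ℕ) : Nat.land a (Nat.sub (Nat.shiftLeft 1 k) 1) = a % 2 ^ k := by
  rw [shl, one_mul]
  exact Nat.and_two_pow_sub_one_eq_mod a k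

theorem ext_lt (p s : ℕ) : ext p s < 2 ^ 44 := by
  unfold ext
  have h1 : Nat.land (Nat.shiftRight p s) 8796093022207 ≤ 8796093022207 := Nat.and_le_right
  have h2 : Nat.sub (Nat.land (Nat.shiftRight p s) 8796093022207) 1099511627776 ≤
      Nat.land (Nat.shiftRight p s) 8796093022207 := Nat.sub_le _ _
  calc _ ≤ 8796093022207 := h2.trans h1
    _ < 2 ^ 44 := by norm_num

/-- running a loop whose states are known -/
theorem lp3_run {α : Type} (st : ℕ → ℕ → ℕ → ℕ → (ℕ → ℕ → ℕ → α) → α) (S0 S1 S2 : ℕ → ℕ)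
    (fin : ℕ → ℕ → ℕ → α) (n : ℕ)
    (h : ∀ i, i < n → ∀ k : ℕ → ℕ → ℕ → α,
      st i (S0 (i + 1)) (S1 (i + 1)) (S2 (i + 1)) k = k (S0 i) (S1 i) (S2 i)) :
    lp3 n st fin (S0 n) (S1 n) (S2 n) = fin (S0 0) (S1 0) (S2 0) := by
  induction n with
  | zero => rfl
  | succ n ih =>
    rw [lp3_succ, h n (Nat.lt_succ_self n)]
    exact ih fun i hi k => h i (Nat.lt_succ_of_lt hi) k

theorem pts_eq {α : Type} (N offe cnt : ℕ) (T0 T1 T2 : ℕ) (k : ℕ → ℕ → ℕ → α) :
    pts N offe cnt T0 T1 T2 k =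
      k (T0 * 2 ^ (44 * cnt) + ∑ d ∈ range cnt, ext (Nat.add (Nat.mul N (pwd d)) offe) 3824 * 2 ^ (44 * d))
        (T1 * 2 ^ (44 * cnt) + ∑ d ∈ range cnt, ext (Nat.add (Nat.mul N (pwd d)) offe) 11600 * 2 ^ (44 * d))
        (T2 * 2 ^ (44 * cnt) + ∑ d ∈ range cnt, ext (Nat.add (Nat.mul N (pwd d)) offe) 19376 * 2 ^ (44 * d)) := by
  unfold pts
  simp only [sq_eq]
  induction cnt generalizing T0 T1 T2 with
  | zero =>
    rw [lp3_zero]
    simp only [range_zero, sum_empty, mul_zero, pow_zero, mul_one, add_zero]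
  | succ n ih =>
    rw [lp3_succ, ih]
    have key : ∀ (T : ℕ) (v : ℕ → ℕ), Nat.add (Nat.shiftLeft T 44) (v n) * 2 ^ (44 * n) +
        ∑ d ∈ range n, v d * 2 ^ (44 * d) =
        T * 2 ^ (44 * (n + 1)) + ∑ d ∈ range (n + 1), v d * 2 ^ (44 * d) := by
      intro T v
      rw [shl, sum_range_succ, Nat.add_eq, mul_add, pow_add]
      ring
    rw [key T0 (fun d => ext (Nat.add (Nat.mul N (pwd d)) offe) 3824),
      key T1 (fun d => ext (Nat.add (Nat.mul N (pwd d)) offe) 11600),
      key T2 (fun d => ext (Nat.add (Nat.mul N (pwd d)) offe) 19376)]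

/-- the packed number of one block -/
noncomputable def nn (A b lam : ℕ) : ℕ :=
  digs offH (horn A b (nmin 120 (Nat.add 24 b))) (nmin 120 (Nat.add 24 b)) lam

/-- value at the point `d` of a block -/
noncomputable def vv (A b lam d s : ℕ) : ℕ := ext (Nat.add (Nat.mul (nn A b lam) (pwd d)) offE) s

theorem blk_eq {α : Type} (A b lam cnt : ℕ) (T0 T1 T2 : ℕ) (k : ℕ → ℕ → ℕ → α) :
    blk A offH offE b lam cnt T0 T1 T2 k =
      k (T0 * 2 ^ (44 * cnt) + ∑ d ∈ range cnt, vv A b lam d 3824 * 2 ^ (44 * d))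
        (T1 * 2 ^ (44 * cnt) + ∑ d ∈ range cnt, vv A b lam d 11600 * 2 ^ (44 * d))
        (T2 * 2 ^ (44 * cnt) + ∑ d ∈ range cnt, vv A b lam d 19376 * 2 ^ (44 * d)) := by
  unfold blk
  rw [sq_eq, sq_eq, pts_eq]
  rfl

/-- value at the grid point `k` -/
noncomputable def VV (A s k : ℕ) : ℕ :=
  if k < 256 then vv A 0 8 k s
  else if k < 736 then vv A ((k - 256) / 32 + 1) 5 ((k - 256) % 32) s
  else if k < 992 then vv A (16 + 4 * ((k - 736) / 32)) 3 ((k - 736) % 32) s
  else vv A (48 + 4 * min ((k - 992) / 8) 19) 1 ((k - 992) - 8 * min ((k - 992) / 8) 19) s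

theorem VV_lt (A s k : ℕ) : VV A s k < 2 ^ 44 := by
  unfold VV vv
  split_ifs <;> exact ext_lt _ _

/-- the packed values from the grid point `K` on -/
noncomputable def RR (A s K : ℕ) : ℕ := ∑ j ∈ range (1153 - K), VV A s (K + j) * 2 ^ (44 * j)

theorem RR_end (A s : ℕ) : RR A s 1153 = 0 := by
  unfold RR
  simp

theorem RR_step (A s K cnt : ℕ) (h : K + cnt ≤ 1153) :
    RR A s K = RR A s (K + cnt) * 2 ^ (44 * cnt) + ∑ d ∈ range cnt, VV A s (K + d) * 2 ^ (44 * d) := by
  unfold RR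
  rw [show 1153 - K = cnt + (1153 - (K + cnt)) by omega, sum_range_add, sum_mul, add_comm]
  congr 1
  refine sum_congr rfl fun j _ => ?_
  rw [show K + (cnt + j) = K + cnt + j by omega, show 44 * (cnt + j) = 44 * j + 44 * cnt by ring, pow_add,
    mul_assoc]

/-- one block of the loops -/
theorem blk_run {α : Type} (A b lam cnt K : ℕ) (hK : K + cnt ≤ 1153)
    (hv : ∀ s d, d < cnt → VV A s (K + d) = vv A b lam d s) (k : ℕ → ℕ → ℕ → α) :
    blk A offH offE b lam cnt (RR A 3824 (K + cnt)) (RR A 11600 (K + cnt)) (RR A 19376 (K + cnt)) k =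
      k (RR A 3824 K) (RR A 11600 K) (RR A 19376 K) := by
  rw [blk_eq, RR_step A 3824 K cnt hK, RR_step A 11600 K cnt hK, RR_step A 19376 K cnt hK]
  have e : ∀ s, ∑ d ∈ range cnt, vv A b lam d s * 2 ^ (44 * d) =
      ∑ d ∈ range cnt, VV A s (K + d) * 2 ^ (44 * d) := fun s =>
    sum_congr rfl fun d hd => by rw [hv s d (mem_range.1 hd)]
  rw [e, e, e]

theorem tabs_eq {α : Type} (A : ℕ) (k : ℕ → ℕ → ℕ → α) :
    tabs A k = k (RR A 3824 0) (RR A 11600 0) (RR A 19376 0) := by
  unfold tabs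
  rw [sq_eq, sq_eq]
  have s1 := lp3_run (α := α)
    (fun i T0 T1 T2 k => sq (Nat.add 48 (Nat.mul 4 i)) fun b =>
      blk A offH offE b 1 (cnd (Nat.beq i 19) 9 8) T0 T1 T2 k)
    (fun i => RR A 3824 (if i = 20 then 1153 else 992 + 8 * i))
    (fun i => RR A 11600 (if i = 20 then 1153 else 992 + 8 * i))
    (fun i => RR A 19376 (if i = 20 then 1153 else 992 + 8 * i))
    (fun T0 T1 T2 =>
      lp3 8 (fun i T0 T1 T2 k => sq (Nat.add 16 (Nat.mul 4 i)) fun b => blk A offH offE b 3 32 T0 T1 T2 k)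
      (fun T0 T1 T2 =>
        lp3 15 (fun i T0 T1 T2 k => sq (Nat.succ i) fun b => blk A offH offE b 5 32 T0 T1 T2 k)
        (fun T0 T1 T2 => blk A offH offE 0 8 256 T0 T1 T2 k) T0 T1 T2) T0 T1 T2) 20 ?_
  · simp only [if_true, RR_end, show (0 : ℕ) ≠ 20 by norm_num, if_false, mul_zero, add_zero] at s1
    rw [s1]
    have s2 := lp3_run (α := α)
      (fun i T0 T1 T2 k => sq (Nat.add 16 (Nat.mul 4 i)) fun b => blk A offH offE b 3 32 T0 T1 T2 k)
      (fun i => RR A 3824 (736 + 32 * i)) (fun i => RR A 11600 (736 + 32 * i))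
      (fun i => RR A 19376 (736 + 32 * i))
      (fun T0 T1 T2 =>
        lp3 15 (fun i T0 T1 T2 k => sq (Nat.succ i) fun b => blk A offH offE b 5 32 T0 T1 T2 k)
        (fun T0 T1 T2 => blk A offH offE 0 8 256 T0 T1 T2 k) T0 T1 T2) 8 ?_
    · simp only [mul_zero, add_zero, show 736 + 32 * 8 = 992 by norm_num] at s2
      rw [s2]
      have s3 := lp3_run (α := α)
        (fun i T0 T1 T2 k => sq (Nat.succ i) fun b => blk A offH offE b 5 32 T0 T1 T2 k)
        (fun i => RR A 3824 (256 + 32 * i)) (fun i => RR A 11600 (256 + 32 * i))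
        (fun i => RR A 19376 (256 + 32 * i))
        (fun T0 T1 T2 => blk A offH offE 0 8 256 T0 T1 T2 k) 15 ?_
      · simp only [mul_zero, add_zero, show 256 + 32 * 15 = 736 by norm_num] at s3
        rw [s3]
        have s4 := blk_run (α := α) A 0 8 256 0 (by norm_num) ?_ k
        · simpa only [zero_add] using s4
        · intro s d hd
          unfold VV
          rw [if_pos (by omega), zero_add]
      · intro i hi k
        simp only [sq_eq]
        have h := blk_run (α := α) A (Nat.succ i) 5 32 (256 + 32 * i) (by omega) ?_ k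
        · rw [show 256 + 32 * (i + 1) = 256 + 32 * i + 32 by ring]
          exact h
        · intro s d hd
          unfold VV
          rw [if_neg (by omega), if_pos (by omega), show 256 + 32 * i + d - 256 = 32 * i + d by omega,
            show (32 * i + d) / 32 = i by omega, show (32 * i + d) % 32 = d by omega]
    · intro i hi k
      simp only [sq_eq]
      have h := blk_run (α := α) A (Nat.add 16 (Nat.mul 4 i)) 3 32 (736 + 32 * i) (by omega) ?_ k
      · rw [show 736 + 32 * (i + 1) = 736 + 32 * i + 32 by ring]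
        exact h
      · intro s d hd
        unfold VV
        rw [if_neg (by omega), if_neg (by omega), if_pos (by omega),
          show 736 + 32 * i + d - 736 = 32 * i + d by omega,
          show (32 * i + d) / 32 = i by omega, show (32 * i + d) % 32 = d by omega]
        rfl
  · intro i hi k
    simp only [sq_eq]
    rcases Nat.lt_or_ge i 19 with h19 | h19
    · have hb : Nat.beq i 19 = false := Bool.eq_false_iff.2 fun h => by
        have := Nat.eq_of_beq_eq_true h
        omega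
      have h := blk_run (α := α) A (Nat.add 48 (Nat.mul 4 i)) 1 8 (992 + 8 * i) (by omega) ?_ k
      · rw [hb, if_neg (by omega), if_neg (by omega), show 992 + 8 * (i + 1) = 992 + 8 * i + 8 by ring]
        exact h
      · intro s d hd
        unfold VV
        rw [if_neg (by omega), if_neg (by omega), if_neg (by omega),
          show 992 + 8 * i + d - 992 = 8 * i + d by omega,
          show min ((8 * i + d) / 8) 19 = i by omega, show 8 * i + d - 8 * i = d by omega]
        rfl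
    · have hi19 : i = 19 := by omega
      subst hi19
      have h := blk_run (α := α) A (Nat.add 48 (Nat.mul 4 19)) 1 9 (992 + 8 * 19) (by norm_num) ?_ k
      · simp only [show (19 : ℕ) + 1 = 20 by norm_num, if_true, show (19 : ℕ) ≠ 20 by norm_num, if_false]
        exact h
      · intro s d hd
        unfold VV
        rw [if_neg (by omega), if_neg (by omega), if_neg (by omega),
          show 992 + 8 * 19 + d - 992 = 8 * 19 + d by omega,
          show min ((8 * 19 + d) / 8) 19 = 19 by omega, show 8 * 19 + d - 8 * 19 = d by omega]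

theorem RR_lt (A s : ℕ) : RR A s 0 < 2 ^ 51200 := by
  have hlow : ∀ m, ∑ j ∈ range m, VV A s (0 + j) * 2 ^ (44 * j) < 2 ^ (44 * m) := by
    intro m
    induction m with
    | zero => simp
    | succ m ih =>
      rw [sum_range_succ]
      have h2 := VV_lt A s (0 + m)
      calc _ < 2 ^ (44 * m) + VV A s (0 + m) * 2 ^ (44 * m) := Nat.add_lt_add_right ih _
        _ = (VV A s (0 + m) + 1) * 2 ^ (44 * m) := by ring
        _ ≤ 2 ^ 44 * 2 ^ (44 * m) := Nat.mul_le_mul_right _ h2
        _ = 2 ^ (44 * (m + 1)) := by rw [← pow_add]; ring_nf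
  exact (hlow 1153).trans_le (Nat.pow_le_pow_right (by norm_num) (by norm_num))

theorem tab_eq (a : ℕ) : tab a = RR (acf a) 3824 0 +
    (RR (acf a) 11600 0 * 2 ^ 51200 + RR (acf a) 19376 0 * 2 ^ 102400) := by
  unfold tab
  rw [sq_eq, tabs_eq, shl, shl]
  rfl

theorem tabP_eq (a : ℕ) : tabP a = RR (acf a) 3824 0 := by
  unfold tabP
  rw [land_mask, tab_eq, show (102400 : ℕ) = 51200 + 51200 from rfl, pow_add, ← mul_assoc, ← add_mul,
    Nat.add_mul_mod_self_right, Nat.mod_eq_of_lt (RR_lt _ _)]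

theorem tab_shift (a : ℕ) : tab a / 2 ^ 51200 =
    RR (acf a) 11600 0 + RR (acf a) 19376 0 * 2 ^ 51200 := by
  rw [tab_eq, show (102400 : ℕ) = 51200 + 51200 from rfl, pow_add, ← mul_assoc, ← add_mul,
    Nat.add_mul_div_right _ _ (Nat.two_pow_pos _), Nat.div_eq_of_lt (RR_lt _ _), zero_add]

theorem tabS_eq (a : ℕ) : tabS a = RR (acf a) 11600 0 := by
  unfold tabS
  rw [land_mask, shr, tab_shift, Nat.add_mul_mod_self_right, Nat.mod_eq_of_lt (RR_lt _ _)]

theorem tabT_eq (a : ℕ) : tabT a = RR (acf a) 19376 0 := by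
  unfold tabT
  rw [shr, show (102400 : ℕ) = 51200 + 51200 from rfl, pow_add, ← Nat.div_div_eq_div_mul, tab_shift,
    Nat.add_mul_div_right _ _ (Nat.two_pow_pos _), Nat.div_eq_of_lt (RR_lt _ _), zero_add]

theorem tval_RR (A s k : ℕ) (hk : k ≤ 1152) :
    tval (RR A s 0) k = (VV A s k : ℝ) / 2 ^ 40 - 1 := by
  have h := fld_sum 44 1153 (fun j => VV A s (0 + j)) (fun j _ => VV_lt A s _) k (by omega)
  rw [fld_eq] at h
  unfold tval
  have h2 : RR A s 0 / 2 ^ (44 * k) % 2 ^ 44 = VV A s k := by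
    rw [← zero_add k]
    have h3 : RR A s 0 = ∑ j ∈ range 1153, VV A s (0 + j) * 2 ^ (44 * j) := rfl
    rw [h3, zero_add]
    simpa only [zero_add] using h
  rw [h2]

theorem n13 : N13 := by
  intro a f g h ε H k hk
  rw [tabP_eq, tabS_eq, tabT_eq, tval_RR _ _ _ hk, tval_RR _ _ _ hk, tval_RR _ _ _ hk]
  have main : ∀ b lam cnt d : ℕ, IsBlk b lam cnt → d < cnt →
      (∀ s, VV (acf a) s k = vv (acf a) b lam d s) → (((b : ℝ) + (d : ℝ) / 2 ^ lam) / 2 = xg k) →
      |(VV (acf a) 3824 k : ℝ) / 2 ^ 40 - 1 - f (xg k)| ≤ ε ∧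
      |(VV (acf a) 11600 k : ℝ) / 2 ^ 40 - 1 - g (xg k)| ≤ ε ∧
      |(VV (acf a) 19376 k : ℝ) / 2 ^ 40 - 1 - h (xg k)| ≤ ε := by
    intro b lam cnt d hb hd hV hx
    have := H b lam cnt d hb hd (nn (acf a) b lam) rfl
    rw [hV, hV, hV, ← hx]
    exact this
  by_cases h1 : k < 256
  · refine main 0 8 256 k (Or.inl ⟨rfl, rfl, rfl⟩) h1 (fun s => ?_) ?_
    · unfold VV
      rw [if_pos h1]
    · unfold xg
      rw [if_pos h1]
      push_cast
      ring
  by_cases h2 : k < 736
  · refine main ((k - 256) / 32 + 1) 5 32 ((k - 256) % 32)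
      (Or.inr (Or.inl ⟨by omega, by omega, rfl, rfl⟩)) (Nat.mod_lt _ (by norm_num)) (fun s => ?_) ?_
    · unfold VV
      rw [if_neg h1, if_pos h2]
    · unfold xg
      rw [if_neg h1, if_pos h2]
      have e : k = 256 + (32 * ((k - 256) / 32) + (k - 256) % 32) := by omega
      have e' : (k : ℝ) = 256 + (32 * (((k - 256) / 32 : ℕ) : ℝ) + (((k - 256) % 32 : ℕ) : ℝ)) := by
        exact_mod_cast e
      rw [e']
      push_cast
      ring
  by_cases h3 : k < 992
  · refine main (16 + 4 * ((k - 736) / 32)) 3 32 ((k - 736) % 32)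
      (Or.inr (Or.inr (Or.inl ⟨(k - 736) / 32, by omega, rfl, rfl, rfl⟩))) (Nat.mod_lt _ (by norm_num))
      (fun s => ?_) ?_
    · unfold VV
      rw [if_neg h1, if_neg h2, if_pos h3]
    · unfold xg
      rw [if_neg h1, if_neg h2, if_pos h3]
      have e : k = 736 + (32 * ((k - 736) / 32) + (k - 736) % 32) := by omega
      have e' : (k : ℝ) = 736 + (32 * (((k - 736) / 32 : ℕ) : ℝ) + (((k - 736) % 32 : ℕ) : ℝ)) := by
        exact_mod_cast e
      rw [e']
      push_cast
      ring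
  · refine main (48 + 4 * min ((k - 992) / 8) 19) 1 (if min ((k - 992) / 8) 19 = 19 then 9 else 8)
      ((k - 992) - 8 * min ((k - 992) / 8) 19)
      (Or.inr (Or.inr (Or.inr ⟨min ((k - 992) / 8) 19, by omega, rfl, rfl, rfl⟩)))
      (by split_ifs <;> omega) (fun s => ?_) ?_
    · unfold VV
      rw [if_neg h1, if_neg h2, if_neg h3]
    · unfold xg
      rw [if_neg h1, if_neg h2, if_neg h3]
      have e : k = 992 + (8 * min ((k - 992) / 8) 19 + ((k - 992) - 8 * min ((k - 992) / 8) 19)) := by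
        omega
      have e' : (k : ℝ) = 992 + (8 * ((min ((k - 992) / 8) 19 : ℕ) : ℝ) +
          (((k - 992) - 8 * min ((k - 992) / 8) 19 : ℕ) : ℝ)) := by
        exact_mod_cast e
      generalize hm : min ((k - 992) / 8) 19 = m at *
      generalize hd : (k - 992) - 8 * m = d at *
      rw [e']
      push_cast
      ring

end Pool.Agent.Helper3.P705
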